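import Pool.Agent.H86.DB.Targets

/-!
# The partition bound for local algebras with `m` generators (MP_44217d_ag)
-/

set_option autoImplicit false

open Module

namespace Pool.Agent.H59.DB

open Pool.Agent.H86.DB Pool.Agent.H12.Defect Pool.Agent.H15.Defect

universe u

variable {k : Type u} [Field k] {A : Type u} [CommRing A] [Algebra k A]

theorem rec_finrank_quot [Module.Finite k A] (I : Ideal A) :
    finrank k (A ⧸ I) + finrank k (I.restrictScalars k) = finrank k A := by
  rw [← (Submodule.Quotient.restrictScalarsEquiv k I).finrank_eq]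
  exact Submodule.finrank_quotient_add_finrank _

/-- the dimension of `A / ann x` -/
theorem rec_finrank_ann [Module.Finite k A] (x : A) :
    finrank k (A ⧸ (Ideal.span {x}).annihilator) + finrank k (A ⧸ Ideal.span {x}) =
      finrank k A := by
  have h1 := rec_finrank_quot (k := k) (Ideal.span {x}).annihilator
  have h2 := rec_finrank_quot (k := k) (Ideal.span {x})
  have h3 := LinearMap.finrank_range_add_finrank_ker (LinearMap.mulLeft k x)
  have e1 : LinearMap.range (LinearMap.mulLeft k x) = (Ideal.span {x}).restrictScalars k := by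
    ext a
    simp only [LinearMap.mem_range, LinearMap.mulLeft_apply, Submodule.restrictScalars_mem,
      Ideal.mem_span_singleton']
    constructor
    · rintro ⟨b, rfl⟩
      exact ⟨b, mul_comm _ _⟩
    · rintro ⟨b, rfl⟩
      exact ⟨b, mul_comm _ _⟩
  have e2 : LinearMap.ker (LinearMap.mulLeft k x) =
      (Ideal.span {x}).annihilator.restrictScalars k := by
    ext a
    simp only [LinearMap.mem_ker, LinearMap.mulLeft_apply, Submodule.restrictScalars_mem]
    rw [Ideal.span, Submodule.mem_annihilator_span_singleton, smul_eq_mul, mul_comm]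
  rw [e1, e2] at h3
  omega

/-- **Row REC.** -/
theorem pf_REC (hI : T_INT.{u}) (hM : T_MIN.{u}) : T_REC.{u} := by
  intro E hE k _
  obtain ⟨hE1, hE2, hE3⟩ := hE
  suffices H : ∀ (d : ℕ) (A : Type u) [CommRing A] [Algebra k A] [Module.Finite k A]
      (α : A →ₐ[k] k) (c m : ℕ) (x : Fin m → A), finrank k A = d → RingHom.ker α ^ c = ⊥ →
      (∀ i, α (x i) = 0) → Algebra.adjoin k (Set.range x) = ⊤ → Dle k A (E m (finrank k A)) by
    intro A _ _ _ α c m x h1 h2 h3
    exact H _ A α c m x rfl h1 h2 h3
  intro d
  induction d using Nat.strong_induction_on with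
  | _ d ih =>
  intro A _ _ _ α c m x hd hc hx hgen
  classical
  have hntr : Nontrivial A := α.toRingHom.domain_nontrivial
  have hdpos : 0 < finrank k A := Module.finrank_pos
  -- a minimal system of generators
  have hex : ∃ m', ∃ y : Fin m' → A, (∀ i, α (y i) = 0) ∧ Algebra.adjoin k (Set.range y) = ⊤ :=
    ⟨m, x, hx, hgen⟩
  obtain ⟨y, hy, hyg⟩ := Nat.find_spec hex
  have hmin : ∀ m' < Nat.find hex, ∀ y : Fin m' → A, (∀ i, α (y i) = 0) →
      Algebra.adjoin k (Set.range y) ≠ ⊤ := fun m' hm' y hy h =>
    Nat.find_min hex hm' ⟨y, hy, h⟩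
  have hle : Nat.find hex ≤ m := Nat.find_min' hex ⟨x, hx, hgen⟩
  generalize Nat.find hex = m' at y hmin hle hy hyg
  rcases m' with _ | n
  · have h1 : Set.range y = ∅ := Set.range_eq_empty y
    rw [h1, Algebra.adjoin_empty] at hyg
    have hs : Function.Surjective (Algebra.ofId k A) := by
      intro a
      have : a ∈ (⊥ : Subalgebra k A) := by rw [hyg]; exact Algebra.mem_top
      obtain ⟨r, hr⟩ := Algebra.mem_bot.mp this
      exact ⟨r, hr⟩
    exact ((dle_self k).of_surjective _ hs).mono (hE1 _ _ hdpos)
  · set z : A := y (Fin.last n) with hz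
    set A₁ : Subalgebra k A := Algebra.adjoin k (Set.range fun i : Fin n => y i.castSucc) with hA₁
    have hA₁top : A₁ ≠ ⊤ := hmin n (Nat.lt_succ_self n) _ (fun i => hy _)
    have hmem₁ : ∀ i : Fin n, y i.castSucc ∈ A₁ := fun i =>
      Algebra.subset_adjoin ⟨i, rfl⟩
    -- nilpotency
    have hznil : IsNilpotent z := by
      refine ⟨c, ?_⟩
      have h1 : z ∈ RingHom.ker α := by
        rw [RingHom.mem_ker]
        exact hy _
      have h2 := Ideal.pow_mem_pow h1 c
      rw [hc] at h2
      exact (Submodule.mem_bot A).mp h2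
    -- decomposition
    have hdec : ∀ a : A, ∃ b ∈ A₁, ∃ c : A, a = b + z * c := by
      intro a
      have ha : a ∈ Algebra.adjoin k (Set.range y) := by rw [hyg]; exact Algebra.mem_top
      refine Algebra.adjoin_induction (p := fun a _ => ∃ b ∈ A₁, ∃ c : A, a = b + z * c)
        ?_ ?_ ?_ ?_ ha
      · rintro _ ⟨i, rfl⟩
        refine Fin.lastCases ?_ (fun j => ?_) i
        · exact ⟨0, A₁.zero_mem, 1, by simp [hz]⟩
        · exact ⟨y j.castSucc, hmem₁ j, 0, by simp⟩
      · intro r
        exact ⟨_, A₁.algebraMap_mem r, 0, by simp⟩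
      · rintro a a' _ _ ⟨b, hb, e, rfl⟩ ⟨b', hb', e', rfl⟩
        exact ⟨b + b', A₁.add_mem hb hb', e + e', by ring⟩
      · rintro a a' _ _ ⟨b, hb, e, rfl⟩ ⟨b', hb', e', rfl⟩
        exact ⟨b * b', A₁.mul_mem hb hb', b * e' + e * b' + z * (e * e'), by ring⟩
    have hz0 : z ≠ 0 := by
      intro h0
      apply hA₁top
      rw [eq_top_iff]
      intro a _
      obtain ⟨b, hb, e, rfl⟩ := hdec a
      rw [h0, zero_mul, add_zero]
      exact hb
    -- the dimension of the quotient
    have hq : n + 1 ≤ finrank k (A ⧸ Ideal.span {z}) :=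
      hM k A α c n y hc hy hyg (hmin n (Nat.lt_succ_self n))
    have hann := rec_finrank_ann (k := k) z
    -- the subalgebra
    have hA₁lt : finrank k A₁ < finrank k A := by
      have h1 : Subalgebra.toSubmodule A₁ ≠ ⊤ := by
        intro h
        apply hA₁top
        rw [← Algebra.top_toSubmodule] at h
        exact Subalgebra.toSubmodule_injective h
      exact Submodule.finrank_lt h1
    have hfin₁ : Module.Finite k A₁ :=
      inferInstanceAs (Module.Finite k (Subalgebra.toSubmodule A₁))
    have hA₁pos : 0 < finrank k A₁ := Module.finrank_pos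
    have hD₁ : Dle k A₁ (E n (finrank k A₁)) := by
      refine ih (finrank k A₁) (by omega) A₁ (α.comp A₁.val) c n
        (fun i => ⟨y i.castSucc, hmem₁ i⟩) rfl ?_ (fun i => hy _) ?_
      · rw [eq_bot_iff]
        intro a ha
        have h1 : Ideal.map A₁.val (RingHom.ker (α.comp A₁.val)) ≤ RingHom.ker α := by
          rw [Ideal.map_le_iff_le_comap]
          intro b hb
          rw [Ideal.mem_comap, RingHom.mem_ker]
          rw [RingHom.mem_ker] at hb
          exact hb
        have h2 : A₁.val a ∈ Ideal.map A₁.val (RingHom.ker (α.comp A₁.val) ^ c) :=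
          Ideal.mem_map_of_mem _ ha
        rw [Ideal.map_pow] at h2
        have h3 := Ideal.pow_right_mono h1 c h2
        rw [hc] at h3
        have h4 : A₁.val a = 0 := (Submodule.mem_bot A).mp h3
        rw [Submodule.mem_bot]
        exact Subtype.ext h4
      · have hinj : Function.Injective A₁.val := Subtype.val_injective
        apply Subalgebra.map_injective hinj
        rw [AlgHom.map_adjoin, Algebra.map_top, Subalgebra.range_val, ← Set.range_comp]
        rfl
    -- the quotient
    set J : Ideal A := (Ideal.span {z}).annihilator with hJ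
    have hJα : ∀ a ∈ J, α a = 0 := by
      intro a ha
      by_contra hne
      rw [hJ, Ideal.span, Submodule.mem_annihilator_span_singleton, smul_eq_mul] at ha
      have h1 : IsNilpotent (a - algebraMap k A (α a)) := by
        refine ⟨c, ?_⟩
        have h1 : a - algebraMap k A (α a) ∈ RingHom.ker α := by
          rw [RingHom.mem_ker, map_sub, AlgHom.commutes]
          simp
        have h2 := Ideal.pow_mem_pow h1 c
        rw [hc] at h2
        exact (Submodule.mem_bot A).mp h2
      have h2 : IsUnit (algebraMap k A (α a)) := (IsUnit.mk0 _ hne).map (algebraMap k A)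
      have h3 : IsUnit a := by
        have := h1.isUnit_add_right_of_commute h2 (Commute.all _ _)
        simpa using this
      exact hz0 ((h3.mul_right_eq_zero).mp ha)
    let α₂ : (A ⧸ J) →ₐ[k] k := Ideal.Quotient.liftₐ J α hJα
    have hfin₂ : finrank k (A ⧸ J) < finrank k A := by omega
    have hntr₂ : Nontrivial (A ⧸ J) := α₂.toRingHom.domain_nontrivial
    have hpos₂ : 0 < finrank k (A ⧸ J) := Module.finrank_pos
    have hD₂ : Dle k (A ⧸ J) (E (n + 1) (finrank k (A ⧸ J))) := by
      refine ih (finrank k (A ⧸ J)) (by omega) (A ⧸ J) α₂ c (n + 1)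
        (fun i => Ideal.Quotient.mkₐ k J (y i)) rfl ?_ ?_ ?_
      · rw [eq_bot_iff]
        have h1 : RingHom.ker α₂ ≤ Ideal.map (Ideal.Quotient.mk J) (RingHom.ker α) := by
          intro b hb
          obtain ⟨a, rfl⟩ := Ideal.Quotient.mk_surjective b
          apply Ideal.mem_map_of_mem
          rw [RingHom.mem_ker] at hb ⊢
          exact hb
        refine (Ideal.pow_right_mono h1 c).trans ?_
        rw [← Ideal.map_pow, hc, Ideal.map_bot]
      · intro i
        exact hy i
      · have h1 : Algebra.adjoin k (Set.range fun i => Ideal.Quotient.mkₐ k J (y i)) =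
            (Algebra.adjoin k (Set.range y)).map (Ideal.Quotient.mkₐ k J) := by
          rw [AlgHom.map_adjoin, ← Set.range_comp]
          rfl
        rw [h1, hyg, Algebra.map_top, AlgHom.range_eq_top]
        exact Ideal.Quotient.mkₐ_surjective k J
    have hfinal := hI k A A₁ z _ _ hznil hdec hD₁ hD₂
    refine hfinal.mono ?_
    have h1 : E n (finrank k A₁) ≤ E n (finrank k A - 1) :=
      hE2 _ _ _ _ hA₁pos le_rfl (by omega)
    have h2 : E (n + 1) (finrank k (A ⧸ J)) ≤ E (n + 1) (finrank k A - (n + 1)) :=
      hE2 _ _ _ _ hpos₂ le_rfl (by omega)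
    have h3 := hE3 (n + 1) (finrank k A) (by omega) (by omega)
    rw [Nat.add_sub_cancel] at h3
    have h4 : E (n + 1) (finrank k A) ≤ E m (finrank k A) := hE2 _ _ _ _ hdpos hle le_rfl
    omega

end Pool.Agent.H59.DB
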